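import Mathlib
import Pool.Agent.N995.Hs2

/-!
# The Hodge standard conjecture for ordinary abelian varieties over all fields of characteristic `p`

Let `A` be an ordinary abelian variety of dimension `g` over a field of characteristic `p`; it is defined
over a finitely generated field `k`. Let `X` be the canonical lift of `A ⊗ k̄` (Serre and Tate), considered
as a complex abelian variety. Suppose that (`SmallTypes`) each simple factor of `X`

* has dimension at most three, or
* is of Albert type I or II with odd relative dimension, or relative dimension at most three (the
  dimension is unbounded, for instance `End = ℤ` and any odd dimension), or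
* has an imaginary quadratic field as its endomorphism algebra, with multiplicities at most three (and
  trivial discriminant if both are three), or
* has complex multiplication (these are the isotrivial factors), where the CM part is divided into
  independent blocks of known kinds;

or that (`FactorsOfSmall`) all simple factors of `X` are factors of one abelian variety of dimension at
most five without fourfold factor `Y` with `End(Y) = ℤ`. The number of factors is arbitrary.

Then the standard conjecture of Hodge type is true for `A` and every polarization `L`: if
`z ∈ H^{2 r}(A ⊗ k̄, ℚ_ℓ(r))`, `2 r ≤ g`, is a nonzero primitive class of an algebraic cycle, then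
`(-1)^r z ∪ z ∪ L^{g - 2 r}` is positive. Only two properties of the classes of cycles are used: they are
Tate classes (they are fixed by an open subgroup of the Galois group of `k`), and their intersection
numbers with the classes in `Alg` are rational (the classes in `Alg` are algebraic on `X` by the theorems of
Lefschetz and Markman, and so are their specialisations).

The numerical form of the conjecture follows: by the Lefschetz standard conjecture (Lieberman) each class
in the primitive part of the group of cycles modulo numerical equivalence has a representative whose
cohomology class is primitive.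

These abelian varieties have many exotic classes (Weil classes and what they generate), so that the theorem
of Milne (classes of divisors) does not apply, and they are neither of dimension at most four (Ancona)
nor isotrivial: the canonical lift of the generic fibre of a family is used, and the comparison of the Tate
classes with the Hodge classes of the canonical lift (`MP_af4e75_ag.CharacteristicPOrdinary`). The proof:
a Tate class `z` is a combination, with coefficients in `ℚ_ℓ`, of specialisations of classes in `Alg`; by the
rationality of the intersection numbers and the Hodge-Riemann relations on `X` a primitive one is the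
specialisation of one rational class in `Alg`, and the Hodge-Riemann relations show the positivity.
-/

namespace Pool.Agent.Results.MP_c0b458_ag.CanonicalLifts

open Module Pool.Agent.Y90 Pool.Agent.N995.OD Pool.Agent.N995.HS TensorProduct

/-- **The standard conjecture of Hodge type for ordinary abelian varieties.** The ordinary abelian variety
is given by its canonical lift `X` and the Galois representation `ρ` on the Tate module; `L` is the Riemann
form of a polarization and `z` is a primitive Tate class of degree `2 r`, `dim X = 2 r + m`, with the
properties of the classes of algebraic cycles. -/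
theorem result (p : ℕ) [hp : Fact p.Prime] (n : ℕ) (hn : 0 < n) (𝔙 : ValuationSubring ℂ)
    (h𝔙 : 𝔙.valuation (p : ℂ) < 1) (X : AV) (hX : SmallTypes X ∨ FactorsOfSmall X)
    (E : X.H → X.H → ℚ) (hE : Pool.Agent.Y90.St.IsPolarization X.per E)
    (ℓ : ℕ) [Fact ℓ.Prime] [Algebra ℚ_[ℓ] ℂ] [Algebra.IsAlgebraic ℚ_[ℓ] ℂ]
    {Γ : Type} [Group Γ] (ρ : Representation ℚ_[ℓ] Γ (ℚ_[ℓ] ⊗[ℚ] X.H)) (χ : Γ →* ℚ_[ℓ])
    {P : Type} [Nonempty P] (deg : P → ℕ) (F : P → Γ) (hdeg : ∀ y, 0 < deg y)
    (hρ : IsOrdinary X.per E 𝔙 (p ^ n) ρ χ deg F)
    (L : X.H → X.H → ℚ) (hL : Pool.Agent.Y90.St.IsPolarization X.per L) (r m : ℕ)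
    (hdim : 2 * (2 * r + m) = finrank ℚ X.H)
    (z : (ℚ_[ℓ] ⊗[ℚ] X.H) [⋀^Fin r × Fin 2]→ₗ[ℚ_[ℓ]] ℚ_[ℓ])
    (htate : ∃ Δ : Subgroup Γ, Δ.FiniteIndex ∧ ∀ g ∈ Δ, ∀ v, z (fun k => ρ g (v k)) = χ g ^ r * z v)
    (hrat : HasRationalNumbers z) (hprim : IsPrimitive L m z) (hz : z ≠ 0) :
    IsPositive L m z :=
  hodgeStandard hp.out hn h𝔙 X hX hE hdeg hρ hL r m hdim z htate hrat hprim hz

end Pool.Agent.Results.MP_c0b458_ag.CanonicalLifts
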