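import Pool.Agent.N998.HS.Sign

/-!
# The numerical Hodge standard conjecture for abelian varieties of Fermat type, small degrees

Let `m` be prime to the prime `p`, and `A` an abelian variety over an algebraic closure of the field
with `p` elements whose simple factors are factors of the Jacobian of the Fermat curve of degree `m`.
Its cycle classes modulo numerical equivalence come from the classes in the tensor powers of the `H^1`
of the Fermat curve, which are spanned (with complex coefficients) by lines `A(s)` for certain Tate
characters `s` (unions of triples of residues with sum zero); the sign of the form
`(-1) ^ n * deg (x * conj x)` on `A(s)` is the sign of `s`. These signs are the values of a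
`LiftSystem`, and the tensors with their form are an example of a `TensorForm`.

The theorem: for all degrees `m = k m0`, `m0 ≤ 135` different from 87, 95, 105, 111, 116, 123 and `k` a
product of odd primes dividing `m0` (for instance for all `m ≤ 86`) and ALL primes `p` not dividing
`m`, and for all `Visible` degrees and all `p` of odd order modulo `m`, the forms on the tensors are positive definite. So all these abelian varieties
satisfy the numerical Hodge standard conjecture (for every polarization), in all dimensions and all
codimensions.

The proof. All Tate characters of these degrees are generated by pairs, characters with four entries,
products of curve characters (divisors on surfaces: Hodge index theorem), standard characters and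
characters lifted from characteristic zero (Hodge-Riemann relations): this is the theorem of helper993
behind `MP_af4e75_ag.FermatSmallDegrees`. The signs are multiplicative.
-/

namespace Pool.Agent.Results.MP_c0b458_ag.FermatEightySix

open Pool.Agent.H916T Pool.Agent.N993.CP Pool.Agent.N998.HS

theorem result (p m : ℕ) [NeZero m] (hp : p.Prime) (hpm : p.Coprime m)
    (h : SmallDegree m ∨ (Odd (orderOf (p : ZMod m)) ∧ Visible m))
    (S : LiftSystem p) (n : ℕ) (C : TensorForm S m n) (v : C.V) (hv : v ≠ 0) : 0 < C.form v v :=
  positive_lines S hp hpm h C.toLine hv

end Pool.Agent.Results.MP_c0b458_ag.FermatEightySix
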