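import Pool.Agent.N992.HSC.Ab

/-!
# The numerical Hodge standard conjecture for abelian varieties of Fermat type: one linear functional

Let `m` be prime to the prime `p`, and `A` an abelian variety over an algebraic closure of the field
with `p` elements whose simple factors are factors of the Jacobian of the Fermat curve of degree `m`.
Its cycle classes modulo numerical equivalence come from the classes in the tensor powers of the `H^1`
of the Fermat curve, which are spanned (with complex coefficients) by lines `A(s)` for certain Tate
characters `s` (unions of triples of residues with sum zero); the sign of the form
`(-1) ^ n * deg (x * conj x)` on `A(s)` is the sign of `s`. These signs are the values of a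
`SignSystem`, and the tensors with their form are an example of `FermatTensors`.

The theorem, for EVERY degree `m` prime to `p`: there is one linear functional `l` on the space of
parity vectors (`parity`: the parities of the numbers of entries in the classes of linked residues,
with values in the field with two elements) such that for all `n` the form is positive definite on the
classes of parity vector `π` if `l π = 0`, and negative definite if `l π = 1`. So the form is
definite on each parity block, in particular on each Galois orbit of characters, and positive on the
block of the zero vector; the numerical Hodge standard conjecture for all these abelian varieties holds
if and only if `l` vanishes on the finitely many parity vectors which occur, and otherwise exactly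
half of them are negative.
-/

namespace Pool.Agent.Results.MP_c0b458_ag.FermatParities

open Pool.Agent.H916T Pool.Agent.N992.HSC

theorem result (p m : ℕ) [NeZero m] (hp : p.Prime) (hpm : p.Coprime m) (S : SignSystem p) :
    ∃ l : (ZMod m → ZMod 2) →ₗ[ZMod 2] ZMod 2, ∀ n : ℕ, 0 < n → ∀ (C : FermatTensors S m n)
      (v : C.V) (π : ZMod m → ZMod 2), v ≠ 0 →
        (∀ a, component C.form C.act a v ≠ 0 → parity p m (Finset.univ.val.map a) = π) →
        (l π = 0 → 0 < C.form v v) ∧ (l π = 1 → C.form v v < 0) :=
  exists_functional_tensors S hp hpm

end Pool.Agent.Results.MP_c0b458_ag.FermatParities
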