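import Pool.Agent.N204.HJ.Fin
import Pool.Agent.N776.HR.P1
import Pool.Agent.N700.HR.PD
import Pool.Agent.N42.HR.P2
import Pool.Agent.N134.HR.F1
import Pool.Agent.N79.HR.F2
import Pool.Agent.N603.HR.F3
import Pool.Agent.N498.HR.F4
import Pool.Agent.N106.HR.F5
import Pool.Agent.N833.HR.F6
import Pool.Agent.N297.HR.F7
import Pool.Agent.N281.HJ.NA
import Pool.Agent.N955.HJ.NB
import Pool.Agent.N681.HJ.NC

/-!
# The numerical standard conjecture of Hodge type for the classes generated by specialised classes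
and the Frobenius
-/

set_option autoImplicit false

open CategoryTheory AlgebraicGeometry

universe u

namespace Pool.Agent.Results.MP_c0b458_ag.GeneratedClasses

open Pool.Agent.H914 Pool.Agent.Y121.AHS Pool.Agent.N204.HR.Def

/-- **The numerical standard conjecture of Hodge type for the generated classes.** -/
theorem result {k : Type u} [Field k] {𝒱 : VarClass k} {ops : CycleOps 𝒱} (T : HodgeTheory ops)
    (X : 𝒱.Obj) {E : Type} [Field E] [Algebra T.W.K E] (hE : Nonempty (E →+* ℂ))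
    (O : Coh E) (hO : O = coh T E X) (S : ∀ n : ℕ, ℕ → Set (O.H n)) (q : ℕ)
    (φ : ∀ n, O.H n → O.H n) (hφ : IsFrobenius O q φ S) (hw : ∀ i, ∃ Q, Weil O q (φ 0) i Q) :
    ∃ φ', IsSemisimplePart O q (φ 0) φ' ∧ ∀ n, ∀ L ∈ O.polar n, L ∈ S n 1 →
      HodgeType O φ' S n L ∧ (InverseIn O S n L → NumHodgeType O (φ 0) S n L) := by
  subst hO
  obtain ⟨φ', h1, h2, h3, h4⟩ := Pool.Agent.N204.HJ.final3
    (Pool.Agent.N42.HR.p2 Pool.Agent.N776.HR.p1 Pool.Agent.N700.HR.pd)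
    (Pool.Agent.N79.HR.f2 Pool.Agent.N134.HR.f1) (Pool.Agent.N603.HRF3.f3 Pool.Agent.N134.HR.f1)
    Pool.Agent.N498.HR.f4 Pool.Agent.N106.HR.f5 Pool.Agent.N833.HR.f6 Pool.Agent.N297.HR.f7
    Pool.Agent.N281.HJ.na Pool.Agent.N955.HJ.nb Pool.Agent.N681.HJ.nc hE hφ hw
  exact ⟨φ', h1, fun n L hL hS => ⟨(h3 n L hL hS).1, fun hI => ((h3 n L hL hS).2 hI).2⟩⟩

end Pool.Agent.Results.MP_c0b458_ag.GeneratedClasses
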